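import Mathlib
import Pool.Agent.PG.Prob

/-!
# Products of paired Gaussian matrices have no outliers

`X, Y` are paired Gaussian matrices of size `N × P(N)`, `P(N) / N → α`.  For every `ε > 0` the
probability that some eigenvalue of `X Yᴴ` has distance at least `ε` from the elliptic region `𝒮`
tends to `0`.  If moreover `μ` is the weak limit of the empirical eigenvalue distributions and `𝒮`
is its closed support, then the Hausdorff distance of the set of eigenvalues from `𝒮` tends to `0`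
in probability.
-/

open MeasureTheory ProbabilityTheory Filter Topology Complex Pool.Agent.PG

namespace Pool.Agent.Results.MP_cddc29_pr.NoOutliers

theorem no_outliers {Γ : Matrix (Fin 4) (Fin 4) ℝ} (hΓ : Γ.PosSemidef) (hx : 0 < sx2 Γ)
    (hy : 0 < sy2 Γ) {α : ℝ} (hα : 0 < α) (P : ℕ → ℕ)
    (hP : Tendsto (fun N => (P N : ℝ) / N) atTop (𝓝 α))
    (Ω : ℕ → Type) [∀ N, MeasurableSpace (Ω N)] (Pr : ∀ N, Measure (Ω N))
    [∀ N, IsProbabilityMeasure (Pr N)] (X Y : ∀ N, Ω N → Matrix (Fin N) (Fin (P N)) ℂ)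
    (hXY : ∀ N, 1 ≤ N → Paired Γ (Pr N) (X N) (Y N)) {ε : ℝ} (hε : 0 < ε) :
    Tendsto (fun N => Pr N {ω | ∃ z ∈ eigs (X N ω * (Y N ω).conjTranspose),
      ε ≤ Metric.infDist z (SS α (sxy Γ) (tau Γ))}) atTop (𝓝 0) := by
  have hs : 0 < sxy Γ := mul_pos (Real.sqrt_pos.2 hx) (Real.sqrt_pos.2 hy)
  obtain ⟨δ, hδ, c, hc, η, hη, k₀, hell⟩ := ellipse_main α hα (tau Γ) (tau_le hΓ hx hy)
    (ε / sxy Γ) (div_pos hε hs)
  have hlim : Tendsto (fun N : ℕ => ENNReal.ofReal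
      (16 * (kk N : ℝ) * N ^ 2 / (c ^ 2 * (1 + δ) ^ (2 * kk N)))) atTop (𝓝 0) := by
    have := ENNReal.tendsto_ofReal (bound_tendsto hc hδ)
    rwa [ENNReal.ofReal_zero] at this
  refine tendsto_of_tendsto_of_tendsto_of_le_of_le' tendsto_const_nhds hlim
    (Eventually.of_forall fun _ => zero_le) ?_
  have e1 : ∀ᶠ N : ℕ in atTop, |(P N : ℝ) / N - α| ≤ η := by
    have := hP.eventually (Metric.closedBall_mem_nhds α hη)
    filter_upwards [this] with N hN
    rwa [Real.dist_eq] at hN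
  have e2 : ∀ᶠ N : ℕ in atTop, α / 2 ≤ (P N : ℝ) / N :=
    hP.eventually (le_mem_nhds (by linarith))
  filter_upwards [e1, e2, kk_small one_pos, kk_small (half_pos hα),
    kk_tendsto.eventually_ge_atTop (max 1 k₀), eventually_ge_atTop 1] with N h1 h2 h3 h4 h5 h6
  have hNR : (0 : ℝ) < N := by exact_mod_cast h6
  refine prob_le hΓ hx hy hc hδ (k := kk N) ((le_max_left _ _).trans h5) ?_ ?_ ?_ (Pr N) (X N) (Y N)
    (hXY N h6)
  · rw [one_mul] at h3
    exact_mod_cast h3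
  · rw [le_div_iff₀ hNR] at h2
    exact_mod_cast h4.trans h2
  · intro z hz
    exact hell _ h1 z hz (kk N) ((le_max_right _ _).trans h5)

/-- if `∫ φ dμ > 0`, `φ` vanishes outside the ball and `|∫ φ dμ^N - ∫ φ dμ|` is small, then there
is an eigenvalue in the ball -/
theorem exists_eig {N : ℕ} (A : Matrix (Fin N) (Fin N) ℂ) (φ : ℂ → ℝ) (S : Set ℂ)
    (h0 : ∀ z ∉ S, φ z = 0) (h : esd A φ ≠ 0) : ∃ z ∈ eigs A, z ∈ S := by
  by_contra hcon
  push Not at hcon
  apply h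
  unfold esd
  have : (A.charpoly.roots.map φ).sum = 0 := by
    apply Multiset.sum_eq_zero
    intro x hx
    obtain ⟨z, hz, rfl⟩ := Multiset.mem_map.1 hx
    exact h0 z (hcon z hz)
  rw [this, mul_zero]

theorem result (Γ : Matrix (Fin 4) (Fin 4) ℝ) (hΓ : Γ.PosSemidef) (hx : 0 < sx2 Γ)
    (hy : 0 < sy2 Γ) (α : ℝ) (hα : 0 < α) (P : ℕ → ℕ)
    (hP : Tendsto (fun N => (P N : ℝ) / N) atTop (𝓝 α))
    (Ω : ℕ → Type) [∀ N, MeasurableSpace (Ω N)] (Pr : ∀ N, Measure (Ω N))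
    [∀ N, IsProbabilityMeasure (Pr N)] (X Y : ∀ N, Ω N → Matrix (Fin N) (Fin (P N)) ℂ)
    (hXY : ∀ N, 1 ≤ N → Paired Γ (Pr N) (X N) (Y N)) :
    (∀ ε > 0, Tendsto (fun N => Pr N {ω | ∃ z ∈ eigs (X N ω * (Y N ω).conjTranspose),
      ε ≤ Metric.infDist z (SS α (sxy Γ) (tau Γ))}) atTop (𝓝 0)) ∧
    ∀ (μ : Measure ℂ) [IsProbabilityMeasure μ],
      (∀ φ : BoundedContinuousFunction ℂ ℝ, ∀ ε > 0, Tendsto (fun N => Pr N {ω |
        ε ≤ |esd (X N ω * (Y N ω).conjTranspose) φ - ∫ z, φ z ∂μ|}) atTop (𝓝 0)) →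
      (∀ z, z ∈ SS α (sxy Γ) (tau Γ) ↔ ∀ r > 0, 0 < μ (Metric.ball z r)) →
      ∀ ε > 0, Tendsto (fun N => Pr N {ω | ε ≤ Metric.hausdorffDist
        (eigs (X N ω * (Y N ω).conjTranspose)) (SS α (sxy Γ) (tau Γ))}) atTop (𝓝 0) := by
  have hout : ∀ ε > 0, Tendsto (fun N => Pr N {ω | ∃ z ∈ eigs (X N ω * (Y N ω).conjTranspose),
      ε ≤ Metric.infDist z (SS α (sxy Γ) (tau Γ))}) atTop (𝓝 0) := fun ε hε =>
    no_outliers hΓ hx hy hα P hP Ω Pr X Y hXY hε
  refine ⟨hout, fun μ _ hweak hsupp ε hε => ?_⟩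
  set S := SS α (sxy Γ) (tau Γ) with hS
  have hScomp : IsCompact S := SS_compact _ _ _
  obtain ⟨t, htS, hcov⟩ := hScomp.finite_cover_balls (show 0 < ε / 4 by positivity)
  obtain ⟨ht, hcov⟩ := hcov
  -- bump functions
  have hφ : ∀ x : ℂ, ∃ φ : BoundedContinuousFunction ℂ ℝ, (∀ z, 0 ≤ φ z) ∧
      (∀ z ∉ Metric.ball x (ε / 4), φ z = 0) ∧ ∀ z ∈ Metric.ball x (ε / 8), ε / 8 ≤ φ z := by
    intro x
    refine ⟨BoundedContinuousFunction.mkOfBound
      ⟨fun z => max 0 (ε / 4 - dist z x), by fun_prop⟩ (ε / 4) ?_, fun z => le_max_left _ _, ?_, ?_⟩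
    · intro y z
      have hb : ∀ z : ℂ, 0 ≤ max 0 (ε / 4 - dist z x) ∧ max 0 (ε / 4 - dist z x) ≤ ε / 4 :=
        fun z => ⟨le_max_left _ _, max_le (by positivity) (by linarith [dist_nonneg (x := z) (y := x)])⟩
      have h1 := hb y
      have h2 := hb z
      show dist (max 0 (ε / 4 - dist y x)) (max 0 (ε / 4 - dist z x)) ≤ ε / 4
      rw [Real.dist_eq, abs_le]
      constructor <;> linarith [h1.1, h1.2, h2.1, h2.2]
    · intro z hz
      rw [Metric.mem_ball, not_lt] at hz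
      exact max_eq_left (by linarith)
    · intro z hz
      rw [Metric.mem_ball] at hz
      exact le_max_of_le_right (by linarith)
  choose φ hφ0 hφ1 hφ2 using hφ
  have hφpos : ∀ x ∈ S, 0 < ∫ z, φ x z ∂μ := by
    intro x hx
    have h1 := (hsupp x).1 hx (ε / 8) (by positivity)
    have h2 : (ε / 8) * μ.real (Metric.ball x (ε / 8)) ≤ ∫ z, φ x z ∂μ := by
      have h3 := mul_meas_ge_le_integral_of_nonneg (Eventually.of_forall (hφ0 x))
        ((φ x).integrable μ) (ε / 8)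
      refine le_trans ?_ h3
      refine mul_le_mul_of_nonneg_left ?_ (by positivity)
      exact measureReal_mono (fun z hz => hφ2 x z hz)
    have h4 : 0 < μ.real (Metric.ball x (ε / 8)) :=
      ENNReal.toReal_pos h1.ne' (measure_ne_top _ _)
    exact lt_of_lt_of_le (by positivity) h2
  have hsum : Tendsto (fun N => Pr N {ω | ∃ z ∈ eigs (X N ω * (Y N ω).conjTranspose),
      ε / 2 ≤ Metric.infDist z S} + ∑ x ∈ ht.toFinset, Pr N {ω | (∫ z, φ x z ∂μ) ≤
        |esd (X N ω * (Y N ω).conjTranspose) (φ x) - ∫ z, φ x z ∂μ|}) atTop (𝓝 0) := by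
    rw [show (0 : ENNReal) = 0 + ∑ x ∈ ht.toFinset, 0 by simp]
    refine (hout (ε / 2) (by positivity)).add (tendsto_finsetSum _ fun x hx => ?_)
    exact hweak (φ x) _ (hφpos x (htS (by simpa using hx)))
  refine tendsto_of_tendsto_of_tendsto_of_le_of_le' tendsto_const_nhds hsum
    (Eventually.of_forall fun _ => zero_le) (Eventually.of_forall fun N => ?_)
  refine le_trans (measure_mono ?_) ((measure_union_le _ _).trans
    (add_le_add_right (measure_biUnion_finset_le ht.toFinset _) _))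
  intro ω hω
  by_contra hcon
  rw [Set.mem_union, not_or] at hcon
  obtain ⟨hc1, hc2⟩ := hcon
  have hc1' : ∀ z ∈ eigs (X N ω * (Y N ω).conjTranspose), Metric.infDist z S < ε / 2 := by
    intro z hz
    by_contra h
    exact hc1 ⟨z, hz, not_lt.1 h⟩
  have hc2' : ∀ x ∈ t, ∃ z ∈ eigs (X N ω * (Y N ω).conjTranspose),
      z ∈ Metric.ball x (ε / 4) := by
    intro x hx
    refine exists_eig _ (φ x) _ (hφ1 x) ?_
    intro h0
    apply hc2
    rw [Set.mem_iUnion₂]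
    refine ⟨x, by simpa using hx, ?_⟩
    show (∫ z, φ x z ∂μ) ≤ |esd (X N ω * (Y N ω).conjTranspose) (φ x) - ∫ z, φ x z ∂μ|
    rw [h0, zero_sub, abs_neg]
    exact le_abs_self _
  have h5 : Metric.hausdorffDist (eigs (X N ω * (Y N ω).conjTranspose)) S ≤ ε / 2 := by
    refine Metric.hausdorffDist_le_of_infDist (by positivity) (fun z hz => (hc1' z hz).le) ?_
    intro x hx
    obtain ⟨y, hy, hxy⟩ := Set.mem_iUnion₂.1 (hcov hx)
    obtain ⟨z, hz, hzy⟩ := hc2' y hy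
    refine (Metric.infDist_le_dist_of_mem hz).trans ?_
    rw [Metric.mem_ball] at hxy hzy
    calc dist x z ≤ dist x y + dist y z := dist_triangle _ _ _
      _ ≤ ε / 4 + ε / 4 := by
        rw [dist_comm y z]
        exact add_le_add hxy.le hzy.le
      _ = ε / 2 := by ring
  have h6 : ε ≤ Metric.hausdorffDist (eigs (X N ω * (Y N ω).conjTranspose)) S := hω
  linarith

end Pool.Agent.Results.MP_cddc29_pr.NoOutliers
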